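import Pool.Agent.SchildOwn.Proof

namespace Pool.Agent.Results.MP_5d03ee_an.SuffridgeNotExtremal

open Metric Pool.Agent.SchildOwn

/-- The conjecture is false: `d*/d ≥ 0.6163` for all of Suffridge's functions `g_a`, but there is a
starlike function with `d*/d ≤ 0.616`. -/
theorem result :
    (∀ b : ℝ, 0 < b → b < 1 →
      (∀ z ∈ ball (0 : ℂ) 1, 1 + 2 * (2 * (b : ℂ) ^ 2 - 1) * z + z ^ 2 ∈ Complex.slitPlane ∧
        0 < (base₁ b z).re ∧ 0 < (base₂ b z).re) ∧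
      IsStarlike (suffridge b) ∧ 0.6163 ≤ ratio (suffridge b)) ∧
    (∃ f, IsStarlike f ∧ r₁ f < 1 ∧ ratio f ≤ 0.616) ∧
    sInf {x | ∃ f, IsStarlike f ∧ x = ratio f} ≤ 0.616 ∧
    0.6163 ≤ sInf {x | ∃ b : ℝ, 0 < b ∧ b < 1 ∧ x = ratio (suffridge b)} :=
  main

end Pool.Agent.Results.MP_5d03ee_an.SuffridgeNotExtremal
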